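import Pool.Agent.H91.RD.Targets
import Pool.Agent.H91.RD.Basic

/-!
# MP_609556_an: module CUT
-/

open MeasureTheory Set Filter Topology Metric
open Pool.Agent.H29.TF (hk P)
open Pool.Agent.H91.RD

namespace Pool.Agent.H52.RD

/-- product rule for the second derivative -/
theorem fderiv2_mul {N : ℕ} {χ g : E N → ℝ} (hχ : ContDiff ℝ 2 χ) (hg : ContDiff ℝ 2 g)
    (y v : E N) :
    fderiv ℝ (fderiv ℝ (fun z => χ z * g z)) y v v =
      χ y * fderiv ℝ (fderiv ℝ g) y v v + g y * fderiv ℝ (fderiv ℝ χ) y v v +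
        2 * (fderiv ℝ χ y v * fderiv ℝ g y v) := by
  have d1 : Differentiable ℝ χ := hχ.differentiable (by norm_num)
  have d2 : Differentiable ℝ g := hg.differentiable (by norm_num)
  have dd1 : Differentiable ℝ (fderiv ℝ χ) :=
    (hχ.fderiv_right (m := 1) (by norm_num)).differentiable (by norm_num)
  have dd2 : Differentiable ℝ (fderiv ℝ g) :=
    (hg.fderiv_right (m := 1) (by norm_num)).differentiable (by norm_num)
  have e1 : fderiv ℝ (fun z => χ z * g z) = fun z => χ z • fderiv ℝ g z + g z • fderiv ℝ χ z := by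
    ext1 z
    exact fderiv_fun_mul (d1 z) (d2 z)
  have h1 : HasFDerivAt (fun z => χ z • fderiv ℝ g z)
      (χ y • fderiv ℝ (fderiv ℝ g) y + (fderiv ℝ χ y).smulRight (fderiv ℝ g y)) y :=
    (d1 y).hasFDerivAt.smul (dd2 y).hasFDerivAt
  have h2 : HasFDerivAt (fun z => g z • fderiv ℝ χ z)
      (g y • fderiv ℝ (fderiv ℝ χ) y + (fderiv ℝ g y).smulRight (fderiv ℝ χ y)) y :=
    (d2 y).hasFDerivAt.smul (dd1 y).hasFDerivAt
  rw [e1, (h1.fun_add h2).fderiv]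
  simp only [add_apply, smul_apply,
    ContinuousLinearMap.smulRight_apply, smul_eq_mul]
  ring

/-- the Laplacian as a sum of second derivatives -/
theorem lap_eq {N : ℕ} (f : E N → ℝ) (y : E N) :
    Laplacian.laplacian f y =
      ∑ i : Fin N, fderiv ℝ (fderiv ℝ f) y (EuclideanSpace.basisFun (Fin N) ℝ i)
        (EuclideanSpace.basisFun (Fin N) ℝ i) := by
  have := InnerProductSpace.laplacian_eq_iteratedFDeriv_orthonormalBasis f
    (EuclideanSpace.basisFun (Fin N) ℝ)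
  rw [this]
  refine Finset.sum_congr rfl fun i _ => ?_
  rw [iteratedFDeriv_two_apply]
  rfl

theorem exists_cut (N : ℕ) : ∃ φ : E N → ℝ, ContDiff ℝ 2 φ ∧ HasCompactSupport φ ∧
    (∀ y, 0 ≤ φ y ∧ φ y ≤ 1) ∧ ∀ y ∈ closedBall (0 : E N) 1, φ y = 1 := by
  let φ : ContDiffBump (0 : E N) := ⟨1, 2, one_pos, one_lt_two⟩
  exact ⟨φ, φ.contDiff, φ.hasCompactSupport, fun y => ⟨φ.nonneg, φ.le_one⟩,
    fun y hy => φ.one_of_mem_closedBall hy⟩

theorem fderiv_scale {N : ℕ} (φ : E N → ℝ) (a : ℝ) (z : E N) :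
    fderiv ℝ (fun y : E N => φ (a • y)) z = a • fderiv ℝ φ (a • z) := fderiv_comp_smul a

theorem fderiv2_scale {N : ℕ} {φ : E N → ℝ} (hφ : ContDiff ℝ 2 φ) (a : ℝ) (z : E N) :
    fderiv ℝ (fderiv ℝ (fun y : E N => φ (a • y))) z =
      a • (a • fderiv ℝ (fderiv ℝ φ) (a • z)) := by
  have f1 : fderiv ℝ (fun y : E N => φ (a • y)) = fun z => a • fderiv ℝ φ (a • z) := by
    ext1 z
    exact fderiv_scale φ a z
  have hφ1 : ContDiff ℝ 1 (fderiv ℝ φ) := hφ.fderiv_right (m := 1) (by norm_num)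
  rw [f1]
  have hd : DifferentiableAt ℝ (fun z : E N => fderiv ℝ φ (a • z)) z :=
    ((hφ1.comp (contDiff_const_smul a)).differentiable (by norm_num)) z
  have : fderiv ℝ (fun z : E N => a • fderiv ℝ φ (a • z)) z =
      a • fderiv ℝ (fun z : E N => fderiv ℝ φ (a • z)) z :=
    (hd.hasFDerivAt.const_smul a).fderiv
  rw [this]
  congr 1
  exact fderiv_comp_smul a

/-- bound of the commutator of the Laplacian and a multiplication -/
theorem comm_bound {N : ℕ} {χ g : E N → ℝ} (hχ : ContDiff ℝ 2 χ) (hg : ContDiff ℝ 2 g) (y : E N)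
    {b1 b2 : ℝ} (h1 : ∀ v : E N, ‖v‖ = 1 → |fderiv ℝ χ y v| ≤ b1)
    (h2 : ∀ v : E N, ‖v‖ = 1 → |fderiv ℝ (fderiv ℝ χ) y v v| ≤ b2) (hb1 : 0 ≤ b1) :
    |Laplacian.laplacian (fun z => χ z * g z) y - χ y * Laplacian.laplacian g y| ≤
      N * (|g y| * b2 + 2 * (b1 * ‖fderiv ℝ g y‖)) := by
  have hN : ∀ i : Fin N, ‖EuclideanSpace.basisFun (Fin N) ℝ i‖ = 1 := fun i =>
    (EuclideanSpace.basisFun (Fin N) ℝ).norm_eq_one i
  have key : Laplacian.laplacian (fun z => χ z * g z) y - χ y * Laplacian.laplacian g y =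
      ∑ i : Fin N, (g y * fderiv ℝ (fderiv ℝ χ) y
        (EuclideanSpace.basisFun (Fin N) ℝ i) (EuclideanSpace.basisFun (Fin N) ℝ i) +
        2 * (fderiv ℝ χ y (EuclideanSpace.basisFun (Fin N) ℝ i) *
          fderiv ℝ g y (EuclideanSpace.basisFun (Fin N) ℝ i))) := by
    rw [lap_eq, lap_eq, Finset.mul_sum, ← Finset.sum_sub_distrib]
    refine Finset.sum_congr rfl fun i _ => ?_
    rw [fderiv2_mul hχ hg]
    ring
  rw [key]
  refine (Finset.abs_sum_le_sum_abs _ _).trans ?_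
  have hterm : ∀ i ∈ (Finset.univ : Finset (Fin N)),
      |g y * fderiv ℝ (fderiv ℝ χ) y
        (EuclideanSpace.basisFun (Fin N) ℝ i) (EuclideanSpace.basisFun (Fin N) ℝ i) +
        2 * (fderiv ℝ χ y (EuclideanSpace.basisFun (Fin N) ℝ i) *
          fderiv ℝ g y (EuclideanSpace.basisFun (Fin N) ℝ i))| ≤
        |g y| * b2 + 2 * (b1 * ‖fderiv ℝ g y‖) := by
    intro i _
    refine (abs_add_le _ _).trans (add_le_add ?_ ?_)
    · rw [abs_mul]
      exact mul_le_mul_of_nonneg_left (h2 _ (hN i)) (abs_nonneg _)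
    · rw [abs_mul, abs_mul, abs_two]
      apply mul_le_mul_of_nonneg_left _ zero_le_two
      apply mul_le_mul (h1 _ (hN i)) _ (abs_nonneg _) hb1
      have := (fderiv ℝ g y).le_opNorm (EuclideanSpace.basisFun (Fin N) ℝ i)
      rwa [hN i, mul_one] at this
  refine (Finset.sum_le_sum hterm).trans ?_
  rw [Finset.sum_const, Finset.card_univ, Fintype.card_fin, nsmul_eq_mul]

theorem scale_b1 {N : ℕ} {φ : E N → ℝ} {B1 R : ℝ} (hR0 : 0 < R)
    (hB1 : ∀ y, ‖fderiv ℝ φ y‖ ≤ B1) (y v : E N) (hv : ‖v‖ = 1) :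
    |fderiv ℝ (fun y : E N => φ (R⁻¹ • y)) y v| ≤ B1 / R := by
  rw [fderiv_scale]
  have := (fderiv ℝ φ (R⁻¹ • y)).le_opNorm v
  rw [hv, mul_one] at this
  simp only [smul_apply, smul_eq_mul]
  rw [abs_mul, abs_of_pos (inv_pos.2 hR0), div_eq_inv_mul]
  exact mul_le_mul_of_nonneg_left (this.trans (hB1 _)) (inv_pos.2 hR0).le

theorem scale_b2 {N : ℕ} {φ : E N → ℝ} (hφ : ContDiff ℝ 2 φ) {B2 R : ℝ} (hR : 1 ≤ R)
    (hB2 : ∀ y, ‖fderiv ℝ (fderiv ℝ φ) y‖ ≤ B2) (y v : E N) (hv : ‖v‖ = 1) :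
    |fderiv ℝ (fderiv ℝ (fun y : E N => φ (R⁻¹ • y))) y v v| ≤ B2 / R := by
  have hR0 : 0 < R := by linarith
  rw [fderiv2_scale hφ]
  have h1 := (fderiv ℝ (fderiv ℝ φ) (R⁻¹ • y) v).le_opNorm v
  have h2 := (fderiv ℝ (fderiv ℝ φ) (R⁻¹ • y)).le_opNorm v
  rw [hv, mul_one] at h1 h2
  simp only [smul_apply, smul_eq_mul]
  rw [abs_mul, abs_mul, abs_of_pos (inv_pos.2 hR0), div_eq_inv_mul]
  have h3 : R⁻¹ * |fderiv ℝ (fderiv ℝ φ) (R⁻¹ • y) v v| ≤ B2 := by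
    have h4 : R⁻¹ ≤ 1 := inv_le_one_of_one_le₀ hR
    have h5 : |fderiv ℝ (fderiv ℝ φ) (R⁻¹ • y) v v| ≤ B2 := (h1.trans h2).trans (hB2 _)
    have h6 := abs_nonneg (fderiv ℝ (fderiv ℝ φ) (R⁻¹ • y) v v)
    have h7 : 0 < R⁻¹ := inv_pos.2 hR0
    nlinarith
  exact mul_le_mul_of_nonneg_left h3 (inv_pos.2 hR0).le

theorem final_arith {n B1 B2 R d a : ℝ} (hn : 0 ≤ n) (hB1 : 0 ≤ B1) (hB2 : 0 ≤ B2) (hR : 0 < R)
    (hd : 0 ≤ d) (ha : 0 ≤ a) :
    n * (a * (B2 / R) + 2 * (B1 / R * d)) ≤ (2 * n * B1 + n * B2 + 1) / R * (d + a) := by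
  have : (2 * n * B1 + n * B2 + 1) / R * (d + a) - n * (a * (B2 / R) + 2 * (B1 / R * d)) =
      ((2 * n * B1) * a + n * B2 * d + (d + a)) / R := by
    field_simp
    ring
  have h0 : 0 ≤ ((2 * n * B1) * a + n * B2 * d + (d + a)) / R := by
    positivity
  linarith

theorem bdd_fderiv {F : Type*} [NormedAddCommGroup F] [NormedSpace ℝ F] {N : ℕ} {g : E N → F}
    (hc : HasCompactSupport g) (h : Continuous (fderiv ℝ g)) : ∃ C, ∀ x, ‖fderiv ℝ g x‖ ≤ C :=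
  h.bounded_above_of_compact_support (hc.fderiv ℝ)

theorem cut : T_CUT := by
  intro N
  obtain ⟨φ, hφ, hφc, hφ01, hφone⟩ := exists_cut N
  have hφ1 : ContDiff ℝ 1 (fderiv ℝ φ) := hφ.fderiv_right (m := 1) (by norm_num)
  have hφ2 : Continuous (fderiv ℝ (fderiv ℝ φ)) := (hφ1.fderiv_right (m := 0) (by norm_num)).continuous
  have hφc1 : HasCompactSupport (fderiv ℝ φ) := hφc.fderiv ℝ
  obtain ⟨B1, hB1⟩ := bdd_fderiv hφc hφ1.continuous
  obtain ⟨B2, hB2⟩ := bdd_fderiv hφc1 hφ2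
  have hB10 : 0 ≤ B1 := (norm_nonneg _).trans (hB1 0)
  have hB20 : 0 ≤ B2 := (norm_nonneg _).trans (hB2 0)
  refine ⟨2 * N * B1 + N * B2 + 1, by positivity, fun R hR => ?_⟩
  have hR0 : 0 < R := by linarith
  have hc : ContDiff ℝ 2 (fun y : E N => φ (R⁻¹ • y)) := hφ.comp (contDiff_const_smul R⁻¹)
  refine ⟨fun y => φ (R⁻¹ • y), hc, ?_, fun y => hφ01 _, ?_, ?_⟩
  · exact hφc.comp_smul (inv_ne_zero hR0.ne')
  · intro y hy
    apply hφone
    rw [mem_closedBall_zero_iff] at hy ⊢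
    rw [norm_smul, norm_inv, Real.norm_of_nonneg hR0.le, inv_mul_le_iff₀ hR0]
    rwa [mul_one]
  · intro g hg y
    exact (comm_bound hc hg y (fun v hv => scale_b1 hR0 hB1 y v hv)
      (fun v hv => scale_b2 hφ hR hB2 y v hv) (by positivity)).trans
      (final_arith (Nat.cast_nonneg N) hB10 hB20 hR0 (norm_nonneg _) (abs_nonneg _))

end Pool.Agent.H52.RD
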