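import Pool.Agent.H91.RD.Targets
import Pool.Agent.H91.RD.Basic

/-!
# MP_609556_an: module EXT
-/

open MeasureTheory Set Filter Topology Metric
open Pool.Agent.H29.TF (hk P)
open Pool.Agent.H91.RD

namespace Pool.Agent.H52.RD

theorem ext (h1 : T_CPT) (h2 : T_TR) : T_EXT := by
  intro N f K U u hf hu tn xn htn
  have ha : Tendsto (fun n => 0 - tn n) atTop atBot := by
    simp only [zero_sub]
    exact tendsto_neg_atTop_atBot.comp htn
  obtain ⟨σ, v, hσ, hv, hlim⟩ := h1 N f K hf (fun n => 0 - tn n)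
    (fun n t x => lift0 U u (tn n + t) (xn n + x)) ha
    (fun n => h2 N f 0 (tn n) (xn n) _ hu.mild)
    (fun n t ht x => hu.rng (tn n + t) (by linarith) (xn n + x))
  refine ⟨σ, v, hσ, hv, fun R hR => ?_⟩
  refine (hlim R hR).congr ?_
  have h3 : Tendsto (fun n => tn (σ n)) atTop atTop := htn.comp hσ.tendsto_atTop
  filter_upwards [h3.eventually_gt_atTop R] with n hn p hp
  have hp1 : -R ≤ p.1 := hp.1.1
  simp only [Function.comp]
  rw [lift0_pos (by linarith)]

end Pool.Agent.H52.RD
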