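import Pool.Agent.H91.RD.Targets
import Pool.Agent.H91.RD.Basic

/-!
# MP_609556_an: module ONE
-/

open MeasureTheory Set Filter Topology Metric
open Pool.Agent.H29.TF (hk P)
open Pool.Agent.H91.RD

namespace Pool.Agent.H52.RD

theorem P_le_of_le {N : ℕ} {t C : ℝ} (ht : 0 < t) {g : E N → ℝ} (h0 : ∀ y, 0 ≤ g y)
    (hC : ∀ y, g y ≤ C) (x : E N) : P t g x ≤ C := by
  have := Pool.Agent.H29.TF.abs_P_le ht (f := g) (C := C)
    (fun y => by rw [abs_of_nonneg (h0 y)]; exact hC y) x
  exact (le_abs_self _).trans this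

theorem one (h : T_CMP) : T_ONE := by
  intro N f K μ η0 w hf hμ hη0 hnear hw tz htz
  have h1 : ∀ t ≤ tz, ∀ x, w t x = 1 := by
    intro t ht x
    refine le_antisymm (hw.2 t x).2 ?_
    have key : ∀ T : ℝ, -T < t → 1 - w t x ≤ Real.exp (-μ * (t + T)) := by
      intro T hT
      have := h N f K (-μ) (-T) (-T) t (fun _ _ => 1) w hf le_rfl hT (mild_const hf.f1 _)
        (hw.1 _) (fun r hr y _ => by
          have := hnear (w r y) 1 (htz r (hr.2.trans ht) y) (hw.2 r y).2 le_rfl
          linarith) x
      have h2 : P (t - -T) (fun y : E N => max (1 - w (-T) y) 0) x ≤ 1 :=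
        P_le_of_le (by linarith) (fun y => le_max_right _ _)
          (fun y => max_le (by linarith [(hw.2 (-T) y).1]) zero_le_one) x
      calc 1 - w t x ≤ _ := this
        _ ≤ Real.exp (-μ * (t - -T)) * 1 := by
            exact mul_le_mul_of_nonneg_left h2 (Real.exp_pos _).le
        _ = Real.exp (-μ * (t + T)) := by rw [mul_one]; congr 1; ring
    have hlim : Tendsto (fun T : ℝ => Real.exp (-μ * (t + T))) atTop (𝓝 0) := by
      apply Real.tendsto_exp_atBot.comp
      have : Tendsto (fun T : ℝ => t + T) atTop atTop := tendsto_atTop_add_const_left _ _ tendsto_id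
      exact this.const_mul_atTop_of_neg (by linarith)
    have := ge_of_tendsto hlim ((eventually_gt_atTop (-t)).mono fun T hT => key T (by linarith))
    linarith
  intro t x
  rcases le_or_gt t tz with ht | ht
  · exact h1 t ht x
  refine le_antisymm (hw.2 t x).2 ?_
  have := h N f K K tz tz t (fun _ _ => 1) w hf le_rfl ht (mild_const hf.f1 _)
    (hw.1 _) (fun r hr y hy => by
      have := hf.lip 1 (w r y)
      rw [abs_of_pos (by linarith : 0 < 1 - w r y)] at this
      exact (le_abs_self _).trans this) x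
  have h3 : (fun y : E N => max (1 - w tz y) 0) = fun _ => 0 := by
    ext y; rw [h1 tz le_rfl y]; simp
  rw [h3, Pool.Agent.H29.TF.P_const (by linarith), mul_zero] at this
  linarith

end Pool.Agent.H52.RD
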