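import Pool.Agent.H91.RD.Targets
import Pool.Agent.H91.RD.Basic

/-!
# MP_609556_an: module SMP
-/

open MeasureTheory Set Filter Topology Metric
open Pool.Agent.H29.TF (hk P)
open Pool.Agent.H91.RD

namespace Pool.Agent.H52.RD

/-- interval integrability in Duhamel's formula for jointly continuous data -/
theorem intInt_P {N : ℕ} {g : ℝ → E N → ℝ} (hg : Continuous fun p : ℝ × E N => g p.1 p.2)
    {C : ℝ} (hC : ∀ q y, |g q y| ≤ C) (r : ℝ) (x : E N) {s t : ℝ} (hst : s ≤ t) (htr : t ≤ r) :
    IntervalIntegrable (fun q => P (r - q) (g q) x) volume s t := by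
  have hm : StronglyMeasurable (fun q : ℝ => P (r - q) (g q) x) := by
    unfold P
    apply StronglyMeasurable.integral_prod_right'
      (f := fun p : ℝ × E N => hk (r - p.1) (x - p.2) * g p.1 p.2)
    apply Measurable.stronglyMeasurable
    apply Measurable.mul _ hg.measurable
    have : Measurable fun p : ℝ × E N => ((r - p.1, x - p.2) : ℝ × E N) := by fun_prop
    exact Pool.Agent.H29.TF.measurable_hk_uncurry.comp this
  rw [intervalIntegrable_iff_integrableOn_Ioo_of_le hst]
  refine Measure.integrableOn_of_bounded (M := C) (by simp) hm.aestronglyMeasurable ?_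
  refine (ae_restrict_iff' measurableSet_Ioo).2 (Eventually.of_forall fun q hq => ?_)
  exact Pool.Agent.H29.TF.abs_P_le (by linarith [hq.2]) (hC q) x

theorem smp (h : T_SH) : T_SMP := by
  intro N f K w1 w2 hf hw1 hw2 hle t0 x0 heq
  have hc1 := hw1.continuous
  have hc2 := hw2.continuous
  have hfc := hf.continuous
  have hlt : ∀ s < t0, ∀ x, w1 s x = w2 s x := by
    intro s hs
    set z : ℝ → E N → ℝ := fun t x => w2 t x - w1 t x with hz
    set g : ℝ → E N → ℝ := fun t x => f (w2 t x) - f (w1 t x) with hg
    have hz0 : ∀ t x, 0 ≤ z t x := fun t x => sub_nonneg.2 (hle t x)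
    have hz1 : ∀ t x, |z t x| ≤ 1 := by
      intro t x
      rw [abs_of_nonneg (hz0 t x)]
      have := (hw2.2 t x).2
      have := (hw1.2 t x).1
      simp only [hz]; linarith
    have hgz : ∀ t x, |g t x| ≤ K * z t x := by
      intro t x
      have := hf.lip (w2 t x) (w1 t x)
      rwa [abs_of_nonneg (hz0 t x : 0 ≤ w2 t x - w1 t x)] at this
    have hK := hf.K0
    have hfb : ∀ {w : ℝ → E N → ℝ}, Ent f w → ∀ t x, |f (w t x)| ≤ K := by
      intro w hw t x
      refine (hf.abs_le _).trans ?_
      rw [abs_of_nonneg (hw.2 t x).1]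
      have := (hw.2 t x).2
      nlinarith
    have hzc : Continuous fun p : ℝ × E N => z p.1 p.2 := hc2.sub hc1
    have hgc : Continuous fun p : ℝ × E N => g p.1 p.2 := (hfc.comp hc2).sub (hfc.comp hc1)
    have hi : ∀ {w : ℝ → E N → ℝ}, Ent f w → ∀ {r s : ℝ} (x : E N), s < r →
        IntervalIntegrable (fun q => P (r - q) (fun y => f (w q y)) x) volume s r := by
      intro w hw r s x hsr
      exact intInt_P (hfc.comp hw.continuous) (hfb hw) r x hsr.le le_rfl
    have hP : ∀ {v : E N → ℝ}, Continuous v → ∀ {C : ℝ}, (∀ x, |v x| ≤ C) → ∀ {t : ℝ}, 0 < t →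
        ∀ x, Integrable (fun y => hk t (x - y) * v y) := by
      intro v hv C hC t ht x
      exact Pool.Agent.H29.TF.integrable_hk_mul ht hv.aestronglyMeasurable hC x
    have hab : ∀ {w : ℝ → E N → ℝ}, Ent f w → ∀ t x, |w t x| ≤ 1 := by
      intro w hw t x
      rw [abs_of_nonneg (hw.2 t x).1]; exact (hw.2 t x).2
    have hcs : ∀ t, Continuous (z t) := fun t => hzc.comp (by fun_prop : Continuous fun x : E N => (t, x))
    have hcg : ∀ t, Continuous (g t) := fun t => hgc.comp (by fun_prop : Continuous fun x : E N => (t, x))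
    have hduh : ∀ r ∈ Ioc s t0, ∀ x, z r x = P (r - s) (z s) x +
        ∫ q in s..r, P (r - q) (g q) x := by
      intro r hr x
      have e1 := (hw1.1 s).duh s r le_rfl hr.1 x
      have e2 := (hw2.1 s).duh s r le_rfl hr.1 x
      have e3 : P (r - s) (z s) x = P (r - s) (w2 s) x - P (r - s) (w1 s) x :=
        Pool.Agent.H29.TF.P_sub x (hP (hw2.continuous_space s) (hab hw2 s) (by linarith [hr.1]) x)
          (hP (hw1.continuous_space s) (hab hw1 s) (by linarith [hr.1]) x)
      have e4 : ∫ q in s..r, P (r - q) (g q) x =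
          (∫ q in s..r, P (r - q) (fun y => f (w2 q y)) x) -
            ∫ q in s..r, P (r - q) (fun y => f (w1 q y)) x := by
        rw [← intervalIntegral.integral_sub (hi hw2 x hr.1) (hi hw1 x hr.1)]
        apply intervalIntegral.integral_congr_ae
        have hne : ∀ᵐ q : ℝ, q ≠ r := by
          simp [ae_iff, measure_singleton]
        filter_upwards [hne] with q hq hq2
        rw [uIoc_of_le hr.1.le] at hq2
        have hqr : 0 < r - q := by
          have := lt_of_le_of_ne hq2.2 hq
          linarith
        exact Pool.Agent.H29.TF.P_sub x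
          (hP (hfc.comp (hw2.continuous_space q)) (hfb hw2 q) hqr x)
          (hP (hfc.comp (hw1.continuous_space q)) (hfb hw1 q) hqr x)
      rw [e3, e4]
      simp only [hz]
      linarith
    have key := h N K (max 1 K) s t0 z g hs (hcs s).measurable
      (fun r _ x => (hz1 r x).trans (le_max_left _ _))
      (fun r _ x => (hgz r x).trans ((by
        have := hz1 r x
        rw [abs_of_nonneg (hz0 r x)] at this
        nlinarith : K * z r x ≤ K).trans (le_max_right _ _)))
      hzc.continuousOn hgc.continuousOn hduh t0 ⟨hs, le_rfl⟩ x0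
    have hzt : z t0 x0 = 0 := by simp only [hz]; rw [heq]; ring
    have hst : 0 < t0 - s := by linarith
    have hA : 0 ≤ P (t0 - s) (z s) x0 := Pool.Agent.H29.TF.P_nonneg hst.le (hz0 s) x0
    have hB : 0 ≤ ∫ q in s..t0, Real.exp (-(K * (t0 - q))) *
        P (t0 - q) (fun y => g q y + K * z q y) x0 := by
      apply intervalIntegral.integral_nonneg hs.le
      intro q hq
      apply mul_nonneg (Real.exp_pos _).le
      apply Pool.Agent.H29.TF.P_nonneg (by linarith [hq.2])
      intro y
      have := neg_abs_le (g q y)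
      have := hgz q y
      linarith
    have hE : 0 < Real.exp (-(K * (t0 - s))) := Real.exp_pos _
    have hA0 : P (t0 - s) (z s) x0 = 0 := by
      rw [hzt] at key
      have : Real.exp (-(K * (t0 - s))) * P (t0 - s) (z s) x0 = 0 := by
        have := mul_nonneg hE.le hA
        linarith
      rcases mul_eq_zero.1 this with h | h
      · exact absurd h hE.ne'
      · exact h
    unfold P at hA0
    rw [integral_eq_zero_iff_of_nonneg
      (fun y => mul_nonneg (Pool.Agent.H29.TF.hk_nonneg hst.le _) (hz0 s y))
      (hP (hcs s) (hz1 s) hst x0)] at hA0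
    have hcont : Continuous fun y : E N => hk (t0 - s) (x0 - y) * z s y := by
      apply Continuous.mul _ (hcs s)
      exact (Pool.Agent.H29.TF.continuous_hk (t0 - s)).comp (by fun_prop)
    have hall := (Continuous.ae_eq_iff_eq volume hcont continuous_zero).1 hA0
    intro x
    have hx := congrFun hall x
    simp only [Pi.zero_apply] at hx
    rcases mul_eq_zero.1 hx with h | h
    · exact absurd h (Pool.Agent.H29.TF.hk_pos hst _).ne'
    · simp only [hz] at h; linarith
  intro t ht x
  rcases lt_or_eq_of_le ht with h' | rfl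
  · exact hlt t h' x
  have l1 : Tendsto (fun s => w1 s x) (𝓝[<] t) (𝓝 (w1 t x)) :=
    ((hc1.comp (by fun_prop : Continuous fun s : ℝ => (s, x))).tendsto t).mono_left
      nhdsWithin_le_nhds
  have l2 : Tendsto (fun s => w2 s x) (𝓝[<] t) (𝓝 (w2 t x)) :=
    ((hc2.comp (by fun_prop : Continuous fun s : ℝ => (s, x))).tendsto t).mono_left
      nhdsWithin_le_nhds
  refine tendsto_nhds_unique l1 (l2.congr' ?_)
  filter_upwards [self_mem_nhdsWithin] with s hs
  exact (hlt s hs x).symm

end Pool.Agent.H52.RD
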