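import Pool.Agent.H91.RD.Targets
import Pool.Agent.H91.RD.Basic

/-!
# MP_609556_an: module ZERO
-/

open MeasureTheory Set Filter Topology Metric
open Pool.Agent.H29.TF (hk P)
open Pool.Agent.H91.RD

namespace Pool.Agent.H52.RD

theorem zero (h : T_CMP) : T_ZERO := by
  intro N f K c C t3 U I u w tn xn hf hG hT htn hw hlim hfar
  obtain ⟨s1, hs1, hsq⟩ := hG.sq
  have h1 : ∀ τ ≤ -s1, ∀ x, w τ x = 0 := by
    intro τ hτ x
    refine le_antisymm ?_ (hw.2 τ x).1
    have hb : Tendsto (fun n => C * Real.exp (-(c / 2 * (infDist (xn n) (I (tn n)) - ‖x‖))))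
        atTop (𝓝 0) := by
      have h2 : Tendsto (fun n => c / 2 * (infDist (xn n) (I (tn n)) - ‖x‖)) atTop atTop := by
        apply Tendsto.const_mul_atTop (by linarith [hG.c0])
        exact tendsto_atTop_add_const_right _ _ hfar
      have h3 : Tendsto (fun n => Real.exp (-(c / 2 * (infDist (xn n) (I (tn n)) - ‖x‖))))
          atTop (𝓝 0) := Real.tendsto_exp_neg_atTop_nhds_zero.comp h2
      simpa using h3.const_mul C
    refine le_of_tendsto_of_tendsto (hlim.tendsto τ x) hb ?_
    filter_upwards [htn.eventually_ge_atTop (t3 - τ)] with n hn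
    have h4 : t3 ≤ tn n + τ := by linarith
    refine (hT (tn n + τ) h4 (xn n + x)).trans ?_
    have hsub : I (tn n + τ) ⊆ I (tn n) := by
      intro y hy
      have := hG.expd (tn n + τ) h4 (-τ) (by linarith) y hy y (by
        rw [dist_self]; exact hsq _ (by linarith))
      simpa using this
    have h5 : infDist (xn n + x) (I (tn n)) ≤ infDist (xn n + x) (I (tn n + τ)) :=
      infDist_le_infDist_of_subset hsub (hG.ne _ h4)
    have h6 : infDist (xn n) (I (tn n)) ≤ infDist (xn n + x) (I (tn n)) + ‖x‖ := by
      have := infDist_le_infDist_add_dist (s := I (tn n)) (x := xn n) (y := xn n + x)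
      rwa [dist_self_add_right] at this
    apply mul_le_mul_of_nonneg_left _ (by linarith [hG.C0])
    apply Real.exp_le_exp.2
    apply neg_le_neg
    apply mul_le_mul_of_nonneg_left _ (by linarith [hG.c0])
    linarith
  intro t x
  rcases le_or_gt t (-s1) with ht | ht
  · exact h1 t ht x
  refine le_antisymm ?_ (hw.2 t x).1
  have := h N f K K (-s1) (-s1) t w (fun _ _ => 0) hf le_rfl ht (hw.1 _) (mild_const hf.f0 _)
    (fun r hr y hy => by
      have := hf.lip (w r y) 0
      rw [abs_of_pos (by linarith : 0 < w r y - 0)] at this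
      exact (le_abs_self _).trans this) x
  have h3 : (fun y : E N => max (w (-s1) y - 0) 0) = fun _ => 0 := by
    ext y; rw [h1 (-s1) le_rfl y]; simp
  rw [h3, Pool.Agent.H29.TF.P_const (by linarith), mul_zero] at this
  linarith

end Pool.Agent.H52.RD
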